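import Pool.Agent.H49.FOS.S1

/-!
# FOS CRD: restriction of reduced polynomials to the curve
-/

set_option autoImplicit false

namespace Pool.FOS.Crd97

open MvPolynomial

/-- The weight of an exponent. -/
def wt (p N : ℕ) (a : Fin (p + 1) → ℕ) : ℕ := ∑ i, a i * N ^ (i : ℕ)

theorem wt_inj (N : ℕ) : ∀ (p : ℕ) (a b : Fin (p + 1) → ℕ), (∀ i : Fin p, a i.castSucc < N) →
    (∀ i : Fin p, b i.castSucc < N) → wt p N a = wt p N b → a = b := by
  intro p
  induction p with
  | zero =>
    intro a b _ _ h
    funext i
    have : i = 0 := Fin.ext (by omega)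
    subst this
    simpa [wt] using h
  | succ p ih =>
    intro a b ha hb h
    have key : ∀ f : Fin (p + 2) → ℕ, wt (p + 1) N f = f 0 + N * wt p N (fun i => f i.succ) := by
      intro f
      unfold wt
      rw [Fin.sum_univ_succ, Finset.mul_sum]
      congr 1
      · simp
      · refine Finset.sum_congr rfl fun i _ => ?_
        rw [Fin.val_succ, pow_succ]
        ring
    rw [key, key] at h
    have ha0 : a 0 < N := ha 0
    have hb0 : b 0 < N := hb 0
    have h0 : a 0 = b 0 := by
      have := congrArg (fun x => x % N) h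
      simp only [Nat.add_mul_mod_self_left] at this
      rwa [Nat.mod_eq_of_lt ha0, Nat.mod_eq_of_lt hb0] at this
    have h1 : wt p N (fun i => a i.succ) = wt p N (fun i => b i.succ) := by
      have hN : 0 < N := by omega
      have : N * wt p N (fun i => a i.succ) = N * wt p N (fun i => b i.succ) := by omega
      exact Nat.eq_of_mul_eq_mul_left hN this
    have h2 := ih (fun i => a i.succ) (fun i => b i.succ) (fun i => ha i.succ)
      (fun i => hb i.succ) h1
    funext i
    refine Fin.cases h0 (fun j => ?_) i
    exact congrFun h2 j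

theorem rs_eq (p N : ℕ) (c : MvPolynomial (Fin (p + 1)) ℂ) :
    rs p N c = ∑ d ∈ c.support, Polynomial.C (coeff d c) * Polynomial.X ^ wt p N d := by
  unfold rs
  rw [aeval_def, eval₂_eq']
  refine Finset.sum_congr rfl fun d _ => ?_
  congr 1
  unfold wt
  rw [← Finset.prod_pow_eq_pow_sum]
  refine Finset.prod_congr rfl fun i _ => ?_
  rw [← pow_mul, mul_comm]

theorem rs_coeff (p N : ℕ) (c : MvPolynomial (Fin (p + 1)) ℂ) (n : ℕ) :
    (rs p N c).coeff n = ∑ d ∈ c.support, if n = wt p N d then coeff d c else 0 := by
  rw [rs_eq, Polynomial.finsetSum_coeff]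
  refine Finset.sum_congr rfl fun d _ => ?_
  rw [Polynomial.coeff_C_mul_X_pow]

end Pool.FOS.Crd97

namespace Pool.FOS

open MvPolynomial Crd97

theorem t_crd : CRDStmt := by
  classical
  intro p N e c hc
  have hsup : (rs p N c).support ⊆ c.support.image (fun d : Fin (p + 1) →₀ ℕ => wt p N d) := by
    intro n hn
    rw [Polynomial.mem_support_iff, rs_coeff] at hn
    obtain ⟨d, hd, h⟩ := Finset.exists_ne_zero_of_sum_ne_zero hn
    rw [Finset.mem_image]
    refine ⟨d, hd, ?_⟩
    by_contra hne
    exact h (if_neg (Ne.symm hne))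
  have hcard : c.support.card ≤ hh p N e := by
    have hsub : c.support ⊆ ((Finset.univ : Finset (Fin p → Fin N)).sigma
        (fun a => Finset.range (e + 1 - ∑ i, (a i : ℕ)))).image
        (fun x => Finsupp.equivFunOnFinite.symm
          (Fin.snoc (α := fun _ => ℕ) (fun i => (x.1 i : ℕ)) x.2)) := by
      intro a ha
      obtain ⟨h1, h2⟩ := hc a ha
      rw [Finset.mem_image]
      refine ⟨⟨fun i => ⟨a i.castSucc, h1 i⟩, a (Fin.last p)⟩, ?_, ?_⟩
      · rw [Finset.mem_sigma]
        refine ⟨Finset.mem_univ _, ?_⟩
        rw [Finset.mem_range]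
        have h3 : a.degree = ∑ i : Fin p, a i.castSucc + a (Fin.last p) := by
          rw [Finsupp.degree_eq_sum, Fin.sum_univ_castSucc]
        rw [h3] at h2
        show a (Fin.last p) < e + 1 - ∑ i : Fin p, a i.castSucc
        omega
      · ext i
        refine Fin.lastCases ?_ (fun j => ?_) i
        · simp
        · simp
    refine (Finset.card_le_card hsub).trans (Finset.card_image_le.trans ?_)
    rw [Finset.card_sigma]
    unfold hh
    simp
  refine ⟨(Finset.card_le_card hsup).trans (Finset.card_image_le.trans hcard), ?_⟩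
  intro h0
  by_contra hne
  obtain ⟨a, ha⟩ := MvPolynomial.ne_zero_iff.1 hne
  have hmem : a ∈ c.support := mem_support_iff.2 ha
  have h1 : (rs p N c).coeff (wt p N a) = coeff a c := by
    rw [rs_coeff, Finset.sum_eq_single a]
    · rw [if_pos rfl]
    · intro b hb hba
      refine if_neg fun h => hba ?_
      exact (DFunLike.coe_injective
        (wt_inj N p a b (fun i => (hc a hmem).1 i) (fun i => (hc b hb).1 i) h)).symm
    · intro h
      exact absurd hmem h
  rw [h0, Polynomial.coeff_zero] at h1
  exact ha h1.symm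

end Pool.FOS
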