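import Pool.Agent.H49.FOS.S1

/-!
# FOS RDM: division by the equations of the curve
-/

set_option autoImplicit false

namespace Pool.FOS.Rdm97

open MvPolynomial

variable {p N : ℕ}

/-- An expansion in the monomials of the equations, with reduced coefficients. -/
def Gd (p N D : ℕ) (A : MvPolynomial (Fin (p + 1)) ℂ) : Prop :=
  ∃ c : (Fin p →₀ ℕ) →₀ MvPolynomial (Fin (p + 1)) ℂ,
    (∀ α, ∀ a ∈ (c α).support, (∀ i : Fin p, a i.castSucc < N) ∧ a.degree + N * α.degree ≤ D) ∧
    A = c.sum fun α q => fa p N α * q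

theorem Gd.zero (D : ℕ) : Gd p N D 0 := by
  refine ⟨0, ?_, ?_⟩
  · intro α a ha
    simp at ha
  · simp

theorem Gd.add {D : ℕ} {A B : MvPolynomial (Fin (p + 1)) ℂ} (hA : Gd p N D A) (hB : Gd p N D B) :
    Gd p N D (A + B) := by
  classical
  obtain ⟨c, hc, hA⟩ := hA
  obtain ⟨c', hc', hB⟩ := hB
  refine ⟨c + c', ?_, ?_⟩
  · intro α a ha
    rw [Finsupp.add_apply] at ha
    rcases Finset.mem_union.1 (MvPolynomial.support_add ha) with h | h
    · exact hc α a h
    · exact hc' α a h
  · rw [Finsupp.sum_add_index' (fun α => mul_zero _) (fun α q q' => mul_add _ _ _), ← hA, ← hB]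

theorem Gd.smul {D : ℕ} {A : MvPolynomial (Fin (p + 1)) ℂ} (z : ℂ) (hA : Gd p N D A) :
    Gd p N D (C z * A) := by
  classical
  obtain ⟨c, hc, hA⟩ := hA
  refine ⟨c.mapRange (fun q => C z * q) (mul_zero _), ?_, ?_⟩
  · intro α a ha
    rw [Finsupp.mapRange_apply] at ha
    refine hc α a ?_
    rw [mem_support_iff] at ha ⊢
    rw [coeff_C_mul] at ha
    exact fun h => ha (by rw [h, mul_zero])
  · rw [Finsupp.sum_mapRange_index (fun α => mul_zero _), hA, Finsupp.sum, Finsupp.sum,
      Finset.mul_sum]
    refine Finset.sum_congr rfl fun α _ => ?_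
    ring

theorem Gd.mono {D D' : ℕ} (h : D ≤ D') {A : MvPolynomial (Fin (p + 1)) ℂ} (hA : Gd p N D A) :
    Gd p N D' A := by
  obtain ⟨c, hc, hA⟩ := hA
  exact ⟨c, fun α a ha => ⟨(hc α a ha).1, (hc α a ha).2.trans h⟩, hA⟩

theorem fa_single (α : Fin p →₀ ℕ) (i : Fin p) :
    fa p N (α + Finsupp.single i 1) = ff p N i * fa p N α := by
  classical
  unfold fa
  simp only [Finsupp.add_apply, pow_add]
  rw [Finset.prod_mul_distrib, mul_comm]
  congr 1
  rw [Finset.prod_eq_single i]
  · simp
  · intro b _ hb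
    rw [Finsupp.single_apply, if_neg (Ne.symm hb), pow_zero]
  · intro h
    exact absurd (Finset.mem_univ i) h

theorem Gd.ff {D : ℕ} {A : MvPolynomial (Fin (p + 1)) ℂ} (i : Fin p) (hA : Gd p N D A) :
    Gd p N (D + N) (Pool.FOS.ff p N i * A) := by
  classical
  obtain ⟨c, hc, hA⟩ := hA
  have hinj : Function.Injective (fun α : Fin p →₀ ℕ => α + Finsupp.single i 1) :=
    fun α β h => add_right_cancel h
  refine ⟨c.mapDomain (fun α => α + Finsupp.single i 1), ?_, ?_⟩
  · intro α a ha
    by_cases h : α ∈ Set.range (fun α : Fin p →₀ ℕ => α + Finsupp.single i 1)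
    · obtain ⟨β, rfl⟩ := h
      rw [Finsupp.mapDomain_apply hinj] at ha
      obtain ⟨h1, h2⟩ := hc β a ha
      refine ⟨h1, ?_⟩
      simp only [map_add, Finsupp.degree_single]
      nlinarith
    · rw [Finsupp.mapDomain_of_notMem_range _ _ h] at ha
      simp at ha
  · rw [Finsupp.sum_mapDomain_index (fun α => mul_zero _) (fun α q q' => mul_add _ _ _), hA,
      Finsupp.sum, Finsupp.sum, Finset.mul_sum]
    refine Finset.sum_congr rfl fun α _ => ?_
    rw [fa_single]
    ring

theorem Gd.red {D : ℕ} {a : Fin (p + 1) →₀ ℕ} (h : ∀ i : Fin p, a i.castSucc < N)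
    (hD : a.degree ≤ D) : Gd p N D (monomial a 1) := by
  classical
  refine ⟨Finsupp.single 0 (monomial a 1), ?_, ?_⟩
  · intro α b hb
    by_cases hα : α = 0
    · subst hα
      rw [Finsupp.single_eq_same, support_monomial, if_neg one_ne_zero, Finset.mem_singleton] at hb
      subst hb
      refine ⟨h, ?_⟩
      simpa using hD
    · rw [Finsupp.single_eq_of_ne hα] at hb
      simp at hb
  · rw [Finsupp.sum_single_index (mul_zero _)]
    simp [fa]

/-- Monomials. -/
theorem gd_mon (hN : 2 ≤ N) : ∀ n : ℕ, ∀ a : Fin (p + 1) →₀ ℕ, a.degree = n → ∀ D, n ≤ D →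
    Gd p N D (monomial a 1) := by
  classical
  intro n
  induction n using Nat.strong_induction_on with
  | _ n ih =>
    intro a ha D hD
    by_cases h : ∀ i : Fin p, a i.castSucc < N
    · exact Gd.red h (by rw [ha]; exact hD)
    · push Not at h
      obtain ⟨i, hi⟩ := h
      obtain ⟨b, hb⟩ : ∃ b : Fin (p + 1) →₀ ℕ, a = b + Finsupp.single i.castSucc N := by
        refine ⟨a - Finsupp.single i.castSucc N, ?_⟩
        rw [tsub_add_cancel_of_le]
        rw [Finsupp.single_le_iff]
        exact hi
      have hdeg : b.degree + N = n := by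
        rw [← ha, hb, map_add, Finsupp.degree_single]
      have e : (monomial a 1 : MvPolynomial (Fin (p + 1)) ℂ) =
          monomial (b + Finsupp.single i.succ 1) 1 + C (-1) * (Pool.FOS.ff p N i * monomial b 1) := by
        have e1 : (monomial a 1 : MvPolynomial (Fin (p + 1)) ℂ) =
            monomial b 1 * X i.castSucc ^ N := by
          rw [hb, monomial_add_single]
        have e2 : (monomial (b + Finsupp.single i.succ 1) 1 : MvPolynomial (Fin (p + 1)) ℂ) =
            monomial b 1 * X i.succ := by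
          rw [monomial_add_single, pow_one]
        rw [e1, e2]
        unfold Pool.FOS.ff
        have e3 : (C (-1) : MvPolynomial (Fin (p + 1)) ℂ) = -1 := by
          rw [C_neg, C_1]
        rw [e3]
        ring
      rw [e]
      refine Gd.add (ih (b.degree + 1) (by omega) _ (by
        rw [map_add, Finsupp.degree_single]) D (by omega)) (Gd.smul _ ?_)
      have h1 := Gd.ff i (ih b.degree (by omega) b rfl (D - N) (by omega))
      rwa [show D - N + N = D by omega] at h1

theorem gd_all (hN : 2 ≤ N) (D : ℕ) (A : MvPolynomial (Fin (p + 1)) ℂ) (hA : A.totalDegree ≤ D) :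
    Gd p N D A := by
  classical
  rw [A.as_sum]
  have key : ∀ s : Finset (Fin (p + 1) →₀ ℕ), s ⊆ A.support →
      Gd p N D (∑ v ∈ s, monomial v (coeff v A)) := by
    intro s
    induction s using Finset.induction_on with
    | empty => intro _; simpa using Gd.zero D
    | insert v s hv ih =>
      intro hs
      rw [Finset.sum_insert hv]
      refine Gd.add ?_ (ih fun x hx => hs (Finset.mem_insert_of_mem hx))
      have h1 : (monomial v (coeff v A) : MvPolynomial (Fin (p + 1)) ℂ) =
          C (coeff v A) * monomial v 1 := by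
        rw [C_mul_monomial, mul_one]
      rw [h1]
      refine Gd.smul _ (gd_mon hN _ v rfl D ?_)
      refine le_trans ?_ hA
      have := le_totalDegree (hs (Finset.mem_insert_self v s))
      refine le_trans (le_of_eq ?_) this
      rfl
  exact key _ le_rfl

end Pool.FOS.Rdm97

namespace Pool.FOS

theorem t_rdm : RDMStmt := by
  intro p N D hN A hA
  obtain ⟨c, hc, h⟩ := Rdm97.gd_all hN D A hA
  exact ⟨c.support, c, hc, h⟩

end Pool.FOS
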